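import Pool.Agent.Q11.LC.Fun

/-!
# 3-torsion in the multilinear part of the lower central series of the free associative ring

The element `tor x₁ x₂ x₃ x₄ x₅` (12 of the 120 products of five variables, with coefficients `±1`)
lies in `L 3`, three times it lies in `L 4`, and it is not in `L 4`, because of an explicit additive
functional modulo 3 on the words of length 5 (22 nonzero values) which vanishes on all
`[a, [b, [c, d]]]`.  The number of variables is at least 5; for more variables one uses the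
projection onto the free ring on the first five.
-/

set_option autoImplicit false

namespace Pool.Agent.Results.MP_426edc_al.ThreeTorsion

open Pool.Agent.Q11.LC

/-- The free associative unital ring `ℤ⟨x_1, …, x_n⟩`. -/
abbrev A (n : ℕ) : Type := FreeAlgebra ℤ (Fin n)

/-- The lower central series of `A n` as a Lie ring: `L n 1 = A n`, and `L n (k + 1)` is the
additive subgroup spanned by the commutators `a * b - b * a` with `a` in `A n` and `b` in `L n k`,
for `k ≥ 1`.  (`L n 0` is not used.) -/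
def L (n : ℕ) : ℕ → AddSubgroup (A n)
  | 0 => ⊤
  | 1 => ⊤
  | k + 2 => AddSubgroup.closure {z | ∃ a : A n, ∃ b ∈ L n (k + 1), z = a * b - b * a}

/-- `B n l = L n l / L n (l + 1)`. -/
abbrev B (n l : ℕ) : Type := (L n l) ⧸ (L n (l + 1)).addSubgroupOf (L n l)

/-- The additive subgroup of `A n` spanned by the monomials in which `x_j` occurs `m` times. -/
def degPart (n : ℕ) (j : Fin n) (m : ℕ) : AddSubgroup (A n) :=
  AddSubgroup.closure {z | ∃ w : List (Fin n), w.count j = m ∧ z = (w.map (FreeAlgebra.ι ℤ)).prod}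

/-- `T` has degree `m` with respect to `x_j`: it is the class of an element of `L n l` which is of
degree `m` with respect to `x_j`. -/
def HasDeg {n l : ℕ} (T : B n l) (j : Fin n) (m : ℕ) : Prop :=
  ∃ t : L n l, (t : A n) ∈ degPart n j m ∧ QuotientAddGroup.mk t = T

/-- The statement in question: the order of a torsion element of degree `m` with respect to `x_j`
divides `m`. -/
def Statement : Prop := ∀ n l : ℕ, 1 ≤ n → 1 ≤ l → ∀ (j : Fin n) (m : ℕ) (T : B n l),
  T ≠ 0 → IsOfFinAddOrder T → HasDeg T j m → addOrderOf T ∣ m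

theorem mem2 {n : ℕ} (a b : A n) : cm a b ∈ L n 2 :=
  AddSubgroup.subset_closure ⟨a, b, trivial, rfl⟩

theorem mem3 {n : ℕ} (a b c : A n) : cm a (cm b c) ∈ L n 3 :=
  AddSubgroup.subset_closure ⟨a, _, mem2 b c, rfl⟩

theorem mem4 {n : ℕ} (a b c d : A n) : cm a (cm b (cm c d)) ∈ L n 4 :=
  AddSubgroup.subset_closure ⟨a, _, mem3 b c d, rfl⟩

theorem tor_mem3 {n : ℕ} (a b c d e : A n) : tor a b c d e ∈ L n 3 := by
  rw [tor_three]
  repeat' first
    | with_reducible apply AddSubgroup.sub_mem
    | with_reducible apply AddSubgroup.add_mem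
    | apply mem3

theorem tor_mem4 {n : ℕ} (a b c d e : A n) : 3 • tor a b c d e ∈ L n 4 := by
  rw [tor_four]
  repeat' first
    | with_reducible apply AddSubgroup.sub_mem
    | with_reducible apply AddSubgroup.add_mem
    | apply mem4

theorem L_succ (n k : ℕ) : L n (k + 2) =
    AddSubgroup.closure {z | ∃ a : A n, ∃ b ∈ L n (k + 1), z = a * b - b * a} := rfl

theorem psi2 {c : A 5} (hc : c ∈ L 5 2) (a b : A 5) : psi (cm a (cm b c)) = 0 := by
  rw [L_succ 5 0] at hc
  refine AddSubgroup.closure_induction (p := fun c _ => psi (cm a (cm b c)) = 0) ?_ ?_ ?_ ?_ hc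
  · rintro _ ⟨u, v, -, rfl⟩; exact psi_cm a b u v
  · rw [cm_zero_right, cm_zero_right, map_zero]
  · intro x y _ _ hx hy; rw [cm_add_right, cm_add_right, map_add, hx, hy, add_zero]
  · intro x _ hx; rw [cm_neg_right, cm_neg_right, map_neg, hx, neg_zero]

theorem psi3 {b : A 5} (hb : b ∈ L 5 3) (a : A 5) : psi (cm a b) = 0 := by
  rw [L_succ 5 1] at hb
  refine AddSubgroup.closure_induction (p := fun b _ => psi (cm a b) = 0) ?_ ?_ ?_ ?_ hb
  · rintro _ ⟨u, v, hv, rfl⟩; exact psi2 hv a u
  · rw [cm_zero_right, map_zero]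
  · intro x y _ _ hx hy; rw [cm_add_right, map_add, hx, hy, add_zero]
  · intro x _ hx; rw [cm_neg_right, map_neg, hx, neg_zero]

theorem psi4 {x : A 5} (hx : x ∈ L 5 4) : psi x = 0 := by
  rw [L_succ 5 2] at hx
  refine AddSubgroup.closure_induction (p := fun x _ => psi x = 0) ?_ ?_ ?_ ?_ hx
  · rintro _ ⟨u, v, hv, rfl⟩; exact psi3 hv u
  · rw [map_zero]
  · intro x y _ _ hx hy; rw [map_add, hx, hy, add_zero]
  · intro x _ hx; rw [map_neg, hx, neg_zero]

/-- ring homomorphisms respect the lower central series -/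
theorem map_L {n m : ℕ} (f : A n →+* A m) (k : ℕ) : ∀ x ∈ L n k, f x ∈ L m k := by
  induction k with
  | zero => intro x _; trivial
  | succ k ih =>
    cases k with
    | zero => intro x _; trivial
    | succ k =>
      intro x hx
      refine AddSubgroup.closure_induction (p := fun x _ => f x ∈ L m (k + 2)) ?_ ?_ ?_ ?_ hx
      · rintro _ ⟨u, v, hv, rfl⟩
        exact AddSubgroup.subset_closure ⟨f u, f v, ih v hv, by rw [map_sub, map_mul, map_mul]⟩
      · rw [map_zero]; exact zero_mem _
      · intro x y _ _ hx hy; rw [map_add]; exact add_mem hx hy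
      · intro x _ hx; rw [map_neg]; exact neg_mem hx

theorem map_tor {n m : ℕ} (f : A n →+* A m) (a b c d e : A n) :
    f (tor a b c d e) = tor (f a) (f b) (f c) (f d) (f e) := by
  simp only [tor, map_add, map_sub, map_mul]

/-- the variable number `i` (`i < 5`) -/
noncomputable def X (n : ℕ) (hn : 5 ≤ n) (i : Fin 5) : A n :=
  FreeAlgebra.ι ℤ (⟨i.val, i.isLt.trans_le hn⟩ : Fin n)

/-- the element -/
noncomputable def T (n : ℕ) (hn : 5 ≤ n) : A n :=
  tor (X n hn 0) (X n hn 1) (X n hn 2) (X n hn 3) (X n hn 4)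

/-- the projection onto the free ring on five variables -/
noncomputable def pr (n : ℕ) : A n →+* A 5 :=
  (FreeAlgebra.lift ℤ (fun i : Fin n => if h : i.val < 5 then (FreeAlgebra.ι ℤ (⟨i.val, h⟩ : Fin 5) :
    A 5) else 0)).toRingHom

theorem pr_X (n : ℕ) (hn : 5 ≤ n) (i : Fin 5) : pr n (X n hn i) = FreeAlgebra.ι ℤ i := by
  simp [pr, X]

theorem T_not_mem (n : ℕ) (hn : 5 ≤ n) : T n hn ∉ L n 4 := by
  intro h
  have h2 := psi4 (map_L (pr n) 4 _ h)
  rw [T, map_tor, pr_X, pr_X, pr_X, pr_X, pr_X] at h2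
  exact psi_tor h2

theorem word_deg {n : ℕ} (hn : 5 ≤ n) (j : Fin n) (i k l m p : Fin 5)
    (h : [i, k, l, m, p].Perm [0, 1, 2, 3, 4]) :
    X n hn i * X n hn k * X n hn l * X n hn m * X n hn p ∈
      degPart n j (if j.val < 5 then 1 else 0) := by
  let g : Fin 5 → Fin n := fun i => ⟨i.val, i.isLt.trans_le hn⟩
  refine AddSubgroup.subset_closure ⟨[i, k, l, m, p].map g, ?_, ?_⟩
  · rw [(h.map g).count_eq j]
    split_ifs with hj
    · obtain ⟨j, hj'⟩ := j
      have h5 : j = 0 ∨ j = 1 ∨ j = 2 ∨ j = 3 ∨ j = 4 := by simp only at hj; omega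
      rcases h5 with rfl | rfl | rfl | rfl | rfl <;> simp [g]
    · apply List.count_eq_zero_of_not_mem
      intro hm
      obtain ⟨a, -, ha⟩ := List.mem_map.1 hm
      exact hj (by rw [← ha]; exact a.isLt)
  · simp [X, g, mul_assoc]

theorem T_deg (n : ℕ) (hn : 5 ≤ n) (j : Fin n) :
    T n hn ∈ degPart n j (if j.val < 5 then 1 else 0) := by
  unfold T tor
  repeat' first
    | (apply word_deg hn j; decide)
    | apply AddSubgroup.sub_mem
    | apply AddSubgroup.add_mem

/-- For every `n ≥ 5`, the group `B n 3 = L_3 / L_4` of the free associative ring on `n` variables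
has an element of order 3 of degree 1 with respect to each of `x_1, …, x_5` (and of degree 0 with
respect to the other variables); so the order of a torsion element of degree `m` with respect to
`x_j` need not divide `m`. -/
theorem result :
    (∀ n : ℕ, 5 ≤ n → ∃ T : B n 3, addOrderOf T = 3 ∧
      ∀ j : Fin n, HasDeg T j (if j.val < 5 then 1 else 0)) ∧ ¬ Statement := by
  have main : ∀ n : ℕ, 5 ≤ n → ∃ T : B n 3, addOrderOf T = 3 ∧
      ∀ j : Fin n, HasDeg T j (if j.val < 5 then 1 else 0) := by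
    intro n hn
    have h3 : T n hn ∈ L n 3 := tor_mem3 _ _ _ _ _
    refine ⟨QuotientAddGroup.mk ⟨T n hn, h3⟩, ?_, fun j => ⟨⟨T n hn, h3⟩, T_deg n hn j, rfl⟩⟩
    apply addOrderOf_eq_prime
    · rw [← QuotientAddGroup.mk_nsmul, QuotientAddGroup.eq_zero_iff, AddSubgroup.mem_addSubgroupOf]
      exact tor_mem4 _ _ _ _ _
    · rw [Ne, QuotientAddGroup.eq_zero_iff, AddSubgroup.mem_addSubgroupOf]
      exact T_not_mem n hn
  refine ⟨main, fun hS => ?_⟩
  obtain ⟨T, hT, hd⟩ := main 5 le_rfl
  have h1 := hS 5 3 (by norm_num) (by norm_num) 0 1 T ?_ ?_ (hd 0)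
  · rw [hT] at h1; omega
  · rintro rfl; rw [addOrderOf_zero] at hT; omega
  · rw [← addOrderOf_pos_iff, hT]; norm_num

end Pool.Agent.Results.MP_426edc_al.ThreeTorsion
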